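import Pool.Agent.H83.OCG.Time2
import Pool.Agent.H14.OC.Tim
import Pool.Agent.H87.SLO.Tup
import Pool.Agent.H41.L1.LAM

/-!
# Near samples in the windows of the time: basic facts

`Pool.OCG.nr p L θ k i`: the probability that two samples of one line and of one window of the
scale `i` are nearer than `2 ^ (-(i + k))`.

* `TM p L θ k ε X`: the sum over the scales `i < X` is at most `ε X`.
* `nr_fano`, `tm_full`: `TM` from the entropy of the digits of the time.
* `nr_ev`, `tm_ev`: `TM` for the law on an event.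
* `sep`: `n + 1` independent samples of one line and of one window are separated.
* `sep_ev`: the same in an event.
-/

set_option autoImplicit false

namespace Pool.TML

open Finset Real
open Pool.Agent.H49.Ent Pool.Agent.H32.Dense Pool.STK Pool.KAF
open Pool.OCG (nr kp tl nr_nonneg nr_le_one)

variable {Ω Λ : Type} [Fintype Ω]

/-- The sum over the scales of the probabilities of near samples is small. -/
def TM (p : Ω → ℝ) (L : Ω → Λ) (θ : Ω → ℝ) (k : ℕ) (ε : ℝ) (X : ℕ) : Prop :=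
  ∑ i ∈ range X, nr p L θ k i ≤ ε * X

/-- Lines and times only, as data of theorem OC. -/
noncomputable def toOC (p : Ω → ℝ) (L : Ω → Λ) (θ : Ω → ℝ) : Pool.OC.Dat where
  Om := Ω
  Lam := Λ
  Tau := Ω
  P := p
  L := L
  T := fun ω => ω
  y := fun _ => 0
  om := fun _ => 0
  be := fun _ => 0
  N := fun _ => 0
  th := θ
  S := fun _ => 0
  X := 0

/-- The entropy of the first digits of the time, given the line. -/
noncomputable def De (p : Ω → ℝ) (L : Ω → Λ) (θ : Ω → ℝ) (i : ℕ) : ℝ := CH p (tl θ i) L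

theorem nr_fano {p : Ω → ℝ} (hp : IsLaw p) (L : Ω → Λ) (θ : Ω → ℝ) (k i : ℕ) :
    nr p L θ k i * (k * Real.log 2) ≤
      4 * Real.log 2 + (k * Real.log 2 - (De p L θ (i + k) - De p L θ i)) := by
  have h := Pool.OC.TIM.fano (d := toOC p L θ) hp i k
  have e1 : Pr ((toOC p L θ).Qp i) {w | |(toOC p L θ).ta w| < (2 : ℝ) ^ (-((i + k : ℕ) : ℤ))} =
      nr p L θ k i := by
    unfold nr
    push_cast
    rfl
  rw [e1] at h
  unfold Pool.OC.TIM.df at h
  have e2 : Pool.OC.TIM.D (toOC p L θ) (i + k) = De p L θ (i + k) := rfl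
  have e3 : Pool.OC.TIM.D (toOC p L θ) i = De p L θ i := rfl
  rw [e2, e3] at h
  push_cast at h
  linarith

/-- **`TM` from the entropy of the digits of the time.** -/
theorem tm_full {p : Ω → ℝ} (hp : IsLaw p) (L : Ω → Λ) (θ : Ω → ℝ)
    (hθ : ∀ ω, 0 ≤ θ ω ∧ θ ω < 1) {k X : ℕ} (hk : 1 ≤ k) {D : ℝ}
    (h : X * Real.log 2 - D ≤ CH p (tl θ X) L) :
    ∑ i ∈ range X, nr p L θ k i ≤ D / Real.log 2 + 4 * X / k + k := by
  have hl2 : 0 < Real.log 2 := Real.log_pos one_lt_two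
  have hk0 : (0 : ℝ) < k := by exact_mod_cast hk
  obtain ⟨f, hf⟩ : ∃ f : ℕ → ℝ, f = fun i => i * Real.log 2 - De p L θ i := ⟨_, rfl⟩
  have hdf : f = Pool.OC.TIM.df (toOC p L θ) := by
    rw [hf]
    rfl
  have hmono : ∀ i j, i ≤ j → f i ≤ f j := by
    intro i j hij
    obtain ⟨c, rfl⟩ := Nat.exists_eq_add_of_le hij
    rw [hdf]
    exact Pool.OC.TIM.df_mono (d := toOC p L θ) hp i c
  have h0 : f 0 = 0 := by
    rw [hf]
    have : De p L θ 0 = 0 := by
      unfold De
      refine CH_eq_zero hp.nonneg fun ω ω' _ _ _ => ?_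
      have h1 : ∀ ω, tl θ 0 ω = 0 := by
        intro ω
        unfold tl
        rw [pow_zero, one_mul, Int.floor_eq_zero_iff]
        exact hθ ω
      rw [h1, h1]
    simp [this]
  have hnn : ∀ i, 0 ≤ f i := fun i => h0 ▸ hmono 0 i (Nat.zero_le i)
  have hX : f X ≤ D := by
    rw [hf]
    unfold De
    linarith
  -- the scales below `X - k`
  have h1 : ∑ i ∈ range (X - k), nr p L θ k i * (k * Real.log 2) ≤
      (X - k : ℕ) * (4 * Real.log 2) + k * D := by
    have e1 : ∑ i ∈ range (X - k), nr p L θ k i * (k * Real.log 2) ≤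
        ∑ i ∈ range (X - k), (4 * Real.log 2 + (f (i + k) - f i)) := by
      refine Finset.sum_le_sum fun i _ => ?_
      have := nr_fano hp L θ k i
      rw [hf]
      push_cast
      linarith
    refine e1.trans ?_
    rw [Finset.sum_add_distrib, Finset.sum_const, Finset.card_range, nsmul_eq_mul]
    have e2 : ∑ i ∈ range (X - k), (f (i + k) - f i) ≤ k * D := by
      rw [Finset.range_eq_Ico]
      by_cases hkX : k ≤ X
      · refine Pool.OC.TIM.tele2 f (Nat.zero_le _) hnn k fun i hi => ?_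
        exact (hmono i X (by omega)).trans hX
      · have : X - k = 0 := by omega
        rw [this]
        simp only [Finset.Ico_self, Finset.sum_empty]
        exact mul_nonneg hk0.le ((hnn X).trans hX)
    linarith
  have hD0 : 0 ≤ D := (hnn X).trans hX
  have h2 : ∑ i ∈ range (X - k), nr p L θ k i ≤ D / Real.log 2 + 4 * X / k := by
    rw [← Finset.sum_mul] at h1
    have e1 : ∑ i ∈ range (X - k), nr p L θ k i ≤
        ((X - k : ℕ) * (4 * Real.log 2) + k * D) / (k * Real.log 2) := by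
      rw [le_div_iff₀ (by positivity)]
      exact h1
    refine e1.trans ?_
    have e2 : ((X - k : ℕ) : ℝ) ≤ X := by exact_mod_cast Nat.sub_le X k
    have e3 : ((X - k : ℕ) * (4 * Real.log 2) + k * D) / (k * Real.log 2) =
        4 * (X - k : ℕ) / k + D / Real.log 2 := by
      field_simp
    rw [e3]
    have e4 : 4 * ((X - k : ℕ) : ℝ) / k ≤ 4 * X / k := by
      refine div_le_div_of_nonneg_right ?_ hk0.le
      linarith
    linarith
  have h3 : ∑ i ∈ Finset.Ico (X - k) X, nr p L θ k i ≤ k := by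
    calc ∑ i ∈ Finset.Ico (X - k) X, nr p L θ k i ≤ ∑ _i ∈ Finset.Ico (X - k) X, (1 : ℝ) :=
          Finset.sum_le_sum fun i _ => nr_le_one hp L θ k i
      _ = ((X - (X - k) : ℕ) : ℝ) := by
          rw [Finset.sum_const, Nat.card_Ico, nsmul_eq_mul, mul_one]
      _ ≤ k := by exact_mod_cast (show X - (X - k) ≤ k by omega)
  have h4 : ∑ i ∈ range X, nr p L θ k i = ∑ i ∈ range (X - k), nr p L θ k i +
      ∑ i ∈ Finset.Ico (X - k) X, nr p L θ k i := by
    rw [Finset.range_eq_Ico, Finset.range_eq_Ico, Finset.sum_Ico_consecutive _ (Nat.zero_le _)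
      (Nat.sub_le X k)]
  rw [h4]
  linarith

/-- The mass of an event. -/
theorem cond_ev_apply {p : Ω → ℝ} (E : Ω → Prop) [DecidablePred E] (ω : Ω) :
    cond p E True ω = if E ω then p ω / law p E True else 0 := by
  unfold Pool.Agent.H49.Ent.cond
  by_cases h : E ω
  · rw [if_pos (eq_true h), if_pos h]
  · rw [if_neg (fun h' => h (of_eq_true h')), if_neg h]

/-- **Pairs for the law on an event.** -/
theorem dbl_ev {T : Type} {p : Ω → ℝ} (hp : IsLaw p) (κ : Ω → T) (S : Set (Ω × Ω)) (E : Ω → Prop)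
    (hE : 0 < law p E True) {lam : ℝ} (hlam : 0 < lam) :
    Pr (dbl (cond p E True) κ) S ≤
      lam / law p E True + Pr (dbl p κ) S / (lam * law p E True) := by
  classical
  obtain ⟨P, hP⟩ : ∃ P, P = law p E True := ⟨_, rfl⟩
  obtain ⟨q, hq⟩ : ∃ q, q = cond p E True := ⟨_, rfl⟩
  rw [← hP] at hE ⊢
  rw [← hq]
  have h0 := hp.nonneg
  have hq0 : ∀ ω, 0 ≤ q ω := fun ω => by
    rw [hq]
    exact cond_nonneg h0 E True ω
  have hqle : ∀ ω, q ω ≤ p ω / P := by
    intro ω
    rw [hq, cond_ev_apply, ← hP]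
    split_ifs
    · exact le_rfl
    · exact div_nonneg (h0 ω) hE.le
  have hql : IsLaw q := by
    rw [hq]
    exact ⟨cond_nonneg h0 E True, sum_cond p E (by rw [← hP]; exact hE.ne')⟩
  have hlaw0 : ∀ z, 0 ≤ law p κ z := fun z => law_nonneg h0 κ z
  have hlawq0 : ∀ z, 0 ≤ law q κ z := fun z => law_nonneg hq0 κ z
  -- the exceptional labels
  obtain ⟨B, hB⟩ : ∃ B : T → ℝ, B = fun z => if P * law q κ z < lam * law p κ z then 1 else 0 :=
    ⟨_, rfl⟩
  have hB0 : ∀ z, 0 ≤ B z := fun z => by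
    rw [hB]
    dsimp only
    split_ifs <;> norm_num
  have key : ∀ ω, 0 < q ω → Pr (cond q κ (κ ω)) {ω' | (ω, ω') ∈ S} ≤
      B (κ ω) + Pr (cond p κ (κ ω)) {ω' | (ω, ω') ∈ S} / lam := by
    intro ω hω
    have hpω : 0 < p ω := by
      have := hqle ω
      by_contra h
      have h1 : p ω = 0 := le_antisymm (not_lt.1 h) (h0 ω)
      rw [h1, zero_div] at this
      linarith
    have hm : 0 < law p κ (κ ω) := law_pos h0 κ hpω
    have hmq : 0 < law q κ (κ ω) := law_pos hq0 κ hω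
    have hc0 : 0 ≤ Pr (cond p κ (κ ω)) {ω' | (ω, ω') ∈ S} :=
      Pool.KAF.Pr_nonneg (cond_nonneg h0 κ (κ ω)) _
    by_cases hb : P * law q κ (κ ω) < lam * law p κ (κ ω)
    · have h1 : Pr (cond q κ (κ ω)) {ω' | (ω, ω') ∈ S} ≤ 1 :=
        Pool.KAF.Pr_le_one ⟨cond_nonneg hq0 κ (κ ω), sum_cond q κ hmq.ne'⟩ _
      have h2 : B (κ ω) = 1 := by
        rw [hB]
        exact if_pos hb
      rw [h2]
      have : 0 ≤ Pr (cond p κ (κ ω)) {ω' | (ω, ω') ∈ S} / lam := div_nonneg hc0 hlam.le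
      linarith
    · have h1 : Pr (cond q κ (κ ω)) {ω' | (ω, ω') ∈ S} ≤
          Pr (cond p κ (κ ω)) {ω' | (ω, ω') ∈ S} / lam := by
        rw [Pool.KAF.Pr_eq, Pool.KAF.Pr_eq, Finset.sum_div]
        refine Finset.sum_le_sum fun ω' _ => ?_
        by_cases hS : ω' ∈ {ω' | (ω, ω') ∈ S}
        · rw [if_pos hS, if_pos hS]
          unfold Pool.Agent.H49.Ent.cond
          by_cases hκ : κ ω' = κ ω
          · rw [if_pos hκ, if_pos hκ, div_div, div_le_div_iff₀ hmq (by positivity)]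
            have h3 := hqle ω'
            rw [le_div_iff₀ hE] at h3
            have h4 := mul_le_mul_of_nonneg_left (not_lt.1 hb) (hq0 ω')
            have h5 := mul_le_mul_of_nonneg_right h3 hmq.le
            calc q ω' * (law p κ (κ ω) * lam) = q ω' * (lam * law p κ (κ ω)) := by ring
              _ ≤ q ω' * (P * law q κ (κ ω)) := h4
              _ = q ω' * P * law q κ (κ ω) := by ring
              _ ≤ p ω' * law q κ (κ ω) := h5
          · rw [if_neg hκ, if_neg hκ, zero_div]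
        · rw [if_neg hS, if_neg hS, zero_div]
      linarith [hB0 (κ ω)]
  rw [Pool.M5T.Pr_dbl, Pool.M5T.Pr_dbl]
  have h1 : Ex q (fun ω => Pr (cond q κ (κ ω)) {ω' | (ω, ω') ∈ S}) ≤
      Ex q (fun ω => B (κ ω) + Pr (cond p κ (κ ω)) {ω' | (ω, ω') ∈ S} / lam) := Ex_mono hq0 key
  refine h1.trans ?_
  rw [Ex_add]
  refine add_le_add ?_ ?_
  · -- the exceptional labels
    unfold Ex
    rw [sum_mul_eq_sum_image q κ B]
    have h2 : ∀ z, law q κ z * B z ≤ lam / P * law p κ z := by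
      intro z
      rw [hB]
      dsimp only
      split_ifs with hb
      · rw [mul_one, div_mul_eq_mul_div, le_div_iff₀ hE]
        linarith
      · rw [mul_zero]
        exact mul_nonneg (by positivity) (hlaw0 z)
    refine (Finset.sum_le_sum fun z _ => h2 z).trans ?_
    rw [← Finset.mul_sum]
    have h3 : ∑ z ∈ univ.image κ, law p κ z = 1 := by
      have h4 := sum_mul_eq_sum_image p κ (fun _ => 1)
      simp only [mul_one] at h4
      rw [← h4]
      exact hp.sum_one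
    rw [h3, mul_one]
  · unfold Ex
    rw [div_eq_mul_inv, Finset.sum_mul]
    refine Finset.sum_le_sum fun ω _ => ?_
    have h2 : 0 ≤ Pr (cond p κ (κ ω)) {ω' | (ω, ω') ∈ S} :=
      Pool.KAF.Pr_nonneg (cond_nonneg h0 κ (κ ω)) _
    have h3 : q ω * (Pr (cond p κ (κ ω)) {ω' | (ω, ω') ∈ S} / lam) ≤
        p ω / P * (Pr (cond p κ (κ ω)) {ω' | (ω, ω') ∈ S} / lam) :=
      mul_le_mul_of_nonneg_right (hqle ω) (div_nonneg h2 hlam.le)
    refine h3.trans (le_of_eq ?_)
    field_simp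

/-- Near samples for the law on an event. -/
theorem nr_ev {p : Ω → ℝ} (hp : IsLaw p) (L : Ω → Λ) (θ : Ω → ℝ) (k i : ℕ) (E : Ω → Prop)
    (hE : 0 < law p E True) :
    nr (cond p E True) L θ k i ≤ 2 * Real.sqrt (nr p L θ k i) / law p E True := by
  have h0 := nr_nonneg hp.nonneg L θ k i
  rcases h0.eq_or_lt with h | h
  · -- no near samples
    rw [← h, Real.sqrt_zero, mul_zero, zero_div]
    refine le_of_forall_pos_le_add fun e he => ?_
    have h1 := dbl_ev hp (kp L θ i) {w | |θ w.2 - θ w.1| < (2 : ℝ) ^ (-((i : ℤ) + k))} E hE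
      (lam := e * law p E True) (by positivity)
    have h2 : Pr (dbl p (kp L θ i)) {w | |θ w.2 - θ w.1| < (2 : ℝ) ^ (-((i : ℤ) + k))} = 0 := h.symm
    rw [h2, zero_div, add_zero, mul_div_assoc, div_self hE.ne', mul_one] at h1
    rw [zero_add]
    exact h1
  · have hs : 0 < Real.sqrt (nr p L θ k i) := Real.sqrt_pos.2 h
    have h1 := dbl_ev hp (kp L θ i) {w | |θ w.2 - θ w.1| < (2 : ℝ) ^ (-((i : ℤ) + k))} E hE hs
    have h2 : Pr (dbl p (kp L θ i)) {w | |θ w.2 - θ w.1| < (2 : ℝ) ^ (-((i : ℤ) + k))} =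
        nr p L θ k i := rfl
    rw [h2] at h1
    refine h1.trans (le_of_eq ?_)
    have h3 : nr p L θ k i / (Real.sqrt (nr p L θ k i) * law p E True) =
        Real.sqrt (nr p L θ k i) / law p E True := by
      have h4 : nr p L θ k i = Real.sqrt (nr p L θ k i) * Real.sqrt (nr p L θ k i) :=
        (Real.mul_self_sqrt h.le).symm
      nth_rewrite 1 [h4]
      rw [mul_div_mul_left _ _ hs.ne']
    rw [h3]
    ring

/-- **`TM` for the law on an event.** -/
theorem tm_ev {p : Ω → ℝ} (hp : IsLaw p) (L : Ω → Λ) (θ : Ω → ℝ) {k X : ℕ} {ε : ℝ}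
    (h : TM p L θ k ε X) (E : Ω → Prop) (hE : 0 < law p E True) :
    TM (cond p E True) L θ k (2 * Real.sqrt ε / law p E True) X := by
  unfold TM at h ⊢
  have h1 : ∑ i ∈ range X, nr (cond p E True) L θ k i ≤
      ∑ i ∈ range X, 2 * Real.sqrt (nr p L θ k i) / law p E True :=
    Finset.sum_le_sum fun i _ => nr_ev hp L θ k i E hE
  refine h1.trans ?_
  have h2 : ∑ i ∈ range X, 2 * Real.sqrt (nr p L θ k i) / law p E True =
      2 / law p E True * ∑ i ∈ range X, Real.sqrt (nr p L θ k i) := by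
    rw [Finset.mul_sum]
    exact Finset.sum_congr rfl fun i _ => by ring
  have h3 : ∑ i ∈ range X, Real.sqrt (nr p L θ k i) ≤ Real.sqrt ε * X := by
    have h4 : (∑ i ∈ range X, Real.sqrt (nr p L θ k i)) ^ 2 ≤
        X * ∑ i ∈ range X, nr p L θ k i := by
      have h5 := sq_sum_le_card_mul_sum_sq (s := range X) (f := fun i => Real.sqrt (nr p L θ k i))
      rw [Finset.card_range] at h5
      refine h5.trans (le_of_eq ?_)
      congr 1
      exact Finset.sum_congr rfl fun i _ => Real.sq_sqrt (nr_nonneg hp.nonneg L θ k i)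
    have hX : (0 : ℝ) ≤ X := Nat.cast_nonneg X
    have h6 : (∑ i ∈ range X, Real.sqrt (nr p L θ k i)) ^ 2 ≤ ε * X * X := by
      refine h4.trans ?_
      have := mul_le_mul_of_nonneg_left h hX
      linarith
    have h7 := Real.abs_le_sqrt h6
    have h8 : Real.sqrt (ε * X * X) = Real.sqrt ε * X := by
      rw [mul_assoc, Real.sqrt_mul' ε (mul_nonneg hX hX), Real.sqrt_mul_self hX]
    rw [h8] at h7
    exact (le_abs_self _).trans h7
  rw [h2]
  have h4 : 0 ≤ 2 / law p E True := by positivity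
  refine (mul_le_mul_of_nonneg_left h3 h4).trans (le_of_eq ?_)
  ring

/-- **Separated samples**: `n + 1` independent samples of one line and of one window. -/
theorem sep {p : Ω → ℝ} (hp : IsLaw p) (L : Ω → Λ) (θ : Ω → ℝ) (k i n : ℕ) :
    Pr (Pool.SLO.tup p (kp L θ i) n) {v | ∃ j j', j ≠ j' ∧
      |θ (v j') - θ (v j)| < (2 : ℝ) ^ (-((i : ℤ) + k))} ≤ (n + 1) ^ 2 * nr p L θ k i := by
  classical
  have hQ := Pool.SLO.tup_isLaw hp (kp L θ i) n
  have hn := nr_nonneg hp.nonneg L θ k i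
  obtain ⟨Ev, hEv⟩ : ∃ Ev : Fin (n + 1) × Fin (n + 1) → Set (Fin (n + 1) → Ω), Ev = fun x =>
    {v | x.1 ≠ x.2 ∧ |θ (v x.2) - θ (v x.1)| < (2 : ℝ) ^ (-((i : ℤ) + k))} := ⟨_, rfl⟩
  have h1 : Pr (Pool.SLO.tup p (kp L θ i) n) {v | ∃ j j', j ≠ j' ∧
      |θ (v j') - θ (v j)| < (2 : ℝ) ^ (-((i : ℤ) + k))} ≤
      Pr (Pool.SLO.tup p (kp L θ i) n) {v | ∃ x, v ∈ Ev x} := by
    refine Pool.KAF.Pr_mono hQ.nonneg fun v _ hv => ?_
    obtain ⟨j, j', h2, h3⟩ := hv
    refine ⟨(j, j'), ?_⟩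
    rw [hEv]
    exact ⟨h2, h3⟩
  refine h1.trans ((Pool.OCG.Dat.Pr_exists_le hQ.nonneg Ev).trans ?_)
  have h2 : ∀ x ∈ (univ : Finset (Fin (n + 1) × Fin (n + 1))),
      Pr (Pool.SLO.tup p (kp L θ i) n) (Ev x) ≤ nr p L θ k i := by
    intro x _
    rw [hEv]
    by_cases hx : x.1 = x.2
    · have h3 : Pr (Pool.SLO.tup p (kp L θ i) n)
          {v | x.1 ≠ x.2 ∧ |θ (v x.2) - θ (v x.1)| < (2 : ℝ) ^ (-((i : ℤ) + k))} ≤
          Pr (Pool.SLO.tup p (kp L θ i) n) ∅ :=
        Pool.KAF.Pr_mono hQ.nonneg fun v _ hv => absurd hx hv.1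
      have h4 : Pr (Pool.SLO.tup p (kp L θ i) n) (∅ : Set (Fin (n + 1) → Ω)) = 0 := by
        rw [Pool.KAF.Pr_eq]
        simp
      linarith
    · have h3 : Marg (Pool.SLO.tup p (kp L θ i) n) (dbl p (kp L θ i)) (fun v => (v x.1, v x.2)) :=
        Pool.SLO.tup_two hp.nonneg (kp L θ i) x.1 x.2 hx
      have h4 := Pool.L1.Pr_marg h3 {w | |θ w.2 - θ w.1| < (2 : ℝ) ^ (-((i : ℤ) + k))}
      have h5 : Pr (Pool.SLO.tup p (kp L θ i) n)
          {v | x.1 ≠ x.2 ∧ |θ (v x.2) - θ (v x.1)| < (2 : ℝ) ^ (-((i : ℤ) + k))} ≤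
          Pr (Pool.SLO.tup p (kp L θ i) n) {w | (w x.1, w x.2) ∈
            {w : Ω × Ω | |θ w.2 - θ w.1| < (2 : ℝ) ^ (-((i : ℤ) + k))}} :=
        Pool.KAF.Pr_mono hQ.nonneg fun v _ hv => hv.2
      rw [h4] at h5
      exact h5
  refine (Finset.sum_le_sum h2).trans (le_of_eq ?_)
  rw [Finset.sum_const, nsmul_eq_mul, Finset.card_univ, Fintype.card_prod, Fintype.card_fin]
  push_cast
  ring

/-- **Few bad scales.** -/
theorem tm_bad {p : Ω → ℝ} (hp : IsLaw p) (L : Ω → Λ) (θ : Ω → ℝ) {k X : ℕ} {ε : ℝ}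
    (hε : 0 < ε) (h : TM p L θ k ε X) :
    (((range X).filter fun i => Real.sqrt ε < nr p L θ k i).card : ℝ) ≤ Real.sqrt ε * X := by
  have hs : 0 < Real.sqrt ε := Real.sqrt_pos.2 hε
  have h1 : (((range X).filter fun i => Real.sqrt ε < nr p L θ k i).card : ℝ) * Real.sqrt ε ≤
      ∑ i ∈ range X, nr p L θ k i := by
    rw [← nsmul_eq_mul]
    refine le_trans (Finset.card_nsmul_le_sum _ (fun i => nr p L θ k i) _ fun i hi =>
      (Finset.mem_filter.1 hi).2.le) ?_
    exact Finset.sum_le_sum_of_subset_of_nonneg (Finset.filter_subset _ _) fun i _ _ =>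
      nr_nonneg hp.nonneg L θ k i
  have h2 : (((range X).filter fun i => Real.sqrt ε < nr p L θ k i).card : ℝ) * Real.sqrt ε ≤
      Real.sqrt ε * X * Real.sqrt ε := by
    refine (h1.trans h).trans (le_of_eq ?_)
    have h3 : ε = Real.sqrt ε * Real.sqrt ε := (Real.mul_self_sqrt hε.le).symm
    nth_rewrite 1 [h3]
    ring
  exact le_of_mul_le_mul_right h2 hs

end Pool.TML
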